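import Mathlib

/-! Independent transversals by counting, and embedding of well spread ordered matchings. -/

namespace Pool.Agent.H.MP_075e78_co
open Finset Classical

lemma transv {U : Type} [Fintype U] {w : ℕ} (w0 : 0 < w) (B : U → Fin w → U → Fin w → Prop)
    (sy : ∀ u a v b, B u a v b → B v b u a)
    (h : ∀ u, 4 * (univ.filter fun p : Fin w × U × Fin w => B u p.1 p.2.1 p.2.2).card ≤ w ^ 2) :
    ∃ s : U → Fin w, ∀ u v, u ≠ v → ¬B u (s u) v (s v) := by
  let z : Fin w := ⟨0, w0⟩
  let T : Finset U → Finset (U → Fin w) := fun S => univ.filter fun s =>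
    (∀ u ∉ S, s u = z) ∧ ∀ u ∈ S, ∀ v ∈ S, u ≠ v → ¬B u (s u) v (s v)
  have key : ∀ S, ∀ u ∉ S, w * (T S).card ≤ 2 * (T (insert u S)).card := fun S => by
    induction S using Finset.strongInduction with
    | H S ih =>
      intro u hu
      let E := univ.filter fun p : Fin w × U × Fin w => B u p.1 p.2.1 p.2.2 ∧ p.2.1 ∈ S
      have c : univ ×ˢ T S ⊆ ((T (insert u S)).image fun s => (s u, Function.update s u z)) ∪
          E.biUnion fun p => (T (S.erase p.2.1)).image fun s => (p.1, Function.update s p.2.1 p.2.2) := by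
        rintro ⟨a, s⟩ hs
        simp only [T, mem_product, mem_filter, mem_univ, true_and] at hs
        by_cases e : ∃ v ∈ S, B u a v (s v)
        · obtain ⟨v, hv, e⟩ := e
          refine mem_union_right _ (mem_biUnion.mpr ⟨(a, v, s v), by simp [E, e, hv],
            mem_image.mpr ⟨Function.update s v z, ?_, by simp⟩⟩)
          simp only [T, mem_filter, mem_univ, true_and, mem_erase, Function.update_apply]
          grind
        · refine mem_union_left _ (mem_image.mpr ⟨Function.update s u a, ?_, by simp [hs.1 u hu]⟩)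
          simp only [T, mem_filter, mem_univ, true_and, mem_insert, Function.update_apply]
          grind
      have c1 := (card_le_card c).trans ((card_union_le _ _).trans
        (Nat.add_le_add card_image_le (card_biUnion_le.trans (sum_le_sum fun _ _ => card_image_le))))
      have c2 : w * ∑ p ∈ E, (T (S.erase p.2.1)).card ≤ E.card * (2 * (T S).card) := by
        rw [mul_sum]
        refine sum_le_card_nsmul _ _ _ fun p hp => ?_
        have m := (mem_filter.mp hp).2.2
        have := ih _ (erase_ssubset m) _ (notMem_erase p.2.1 S)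
        rwa [insert_erase m] at this
      have c3 : 4 * E.card ≤ w ^ 2 := le_trans (Nat.mul_le_mul_left _ (card_le_card fun p hp => by
        simp only [E, mem_filter] at hp ⊢
        exact ⟨hp.1, hp.2.1⟩)) (h u)
      rw [card_product, card_univ, Fintype.card_fin] at c1
      refine Nat.le_of_mul_le_mul_left ?_ w0
      have := Nat.mul_le_mul_left w c1
      have := Nat.mul_le_mul_right (T S).card c3
      nlinarith
  have pos : ∀ S, 0 < (T S).card := fun S => by
    induction S using Finset.induction_on with
    | empty => exact card_pos.mpr ⟨fun _ => z, by simp [T]⟩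
    | insert u S hu ih =>
      have := (Nat.mul_pos w0 ih).trans_le (key S u hu)
      omega
  obtain ⟨s, hs⟩ := card_pos.mp (pos univ)
  exact ⟨s, fun u v => (mem_filter.mp hs).2.2 u (mem_univ _) v (mem_univ _)⟩

lemma core {n w d m K N : ℕ} (w0 : 0 < w) (m0 : 0 < m) (M : Fin n → Fin n) (i2 : ∀ i, M (M i) = i)
    (g : Fin n → Fin K) (g1 : Monotone g) (g2 : ∀ i, g i ≠ g (M i))
    (g3 : ∀ i j, g i = g j → j.val < i + w)
    (g4 : ∀ u v, (univ.filter fun i => g i = u ∧ g (M i) = v).card ≤ d) (hm : 12 * d * n ≤ w * m)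
    (hN : (n + w * K) * m ≤ N) (R : ℕ → ℕ → Prop) (sy : ∀ x y, R x y → R y x)
    (dg : ∀ x < N, ((range N).filter fun y => y ≠ x ∧ ¬R x y).card ≤ n) :
    ∃ f : Fin n → ℕ, StrictMono f ∧ ∀ i, f i < N ∧ R (f i) (f (M i)) := by
  let F : ℕ → ℕ → Prop := fun x y => ∀ a < m, ∀ b < m, ¬R (x * m + a) (y * m + b)
  let p : Fin n → Fin w → ℕ := fun i a => i + w * g i + a
  have sep : ∀ i j a b, g i < g j → p i a < p j b := fun i j a b l => by
    have h1 : i.val < j := g1.reflect_lt l
    have h2 := Nat.mul_le_mul_left w (show (g i).val + 1 ≤ g j from l)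
    have := a.2
    simp only [p]
    rw [mul_add_one] at h2
    omega
  have bd : ∀ i a, p i a < n + w * K := fun i a => by
    have h2 := Nat.mul_le_mul_left w (show (g i).val + 1 ≤ K from (g i).2)
    have := a.2
    have := i.2
    simp only [p]
    rw [mul_add_one] at h2
    omega
  have win : ∀ x < n + w * K, ∀ a < m, x * m + a < N := fun x hx a ha => by
    have := Nat.mul_le_mul_right m (show x + 1 ≤ _ from hx)
    rw [add_one_mul] at this
    omega
  have row : ∀ x < n + w * K, ((range (n + w * K)).filter fun y => y ≠ x ∧ F x y).card * m ≤ n :=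
    fun x hx => by
      refine ((congrArg (_ * ·) (card_range m).symm).trans (card_product _ _).symm).trans_le ?_
      refine le_trans (card_le_card_of_injOn (fun q => q.1 * m + q.2) (fun q hq => ?_) fun q hq r hr e => ?_)
        (dg (x * m) (win x hx 0 m0))
      · simp only [coe_product, coe_filter, mem_range, Set.mem_prod, Set.mem_setOf_eq, coe_range,
          Set.mem_Iio] at hq ⊢
        refine ⟨win _ hq.1.1 _ hq.2, fun e => hq.1.2.1 ?_, hq.1.2.2 0 m0 _ hq.2⟩
        have := congrArg (· / m) e
        simpa [Nat.add_div_of_dvd_right, Nat.div_eq_of_lt hq.2, m0] using this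
      · simp only [coe_product, Set.mem_prod, coe_range, Set.mem_Iio] at hq hr
        have a := congrArg (· / m) e
        have b := congrArg (· % m) e
        simp [Nat.add_div_of_dvd_right, Nat.div_eq_of_lt hq.2, Nat.div_eq_of_lt hr.2, m0,
          Nat.mod_eq_of_lt hq.2, Nat.mod_eq_of_lt hr.2] at a b
        exact Prod.ext a b
  obtain ⟨s, hs⟩ := transv w0 (fun u a v b => ∃ i, g i = u ∧ g (M i) = v ∧ F (p i a) (p (M i) b))
    (fun u a v b ⟨i, h1, h2, h3⟩ => ⟨M i, h2, by rw [i2, h1], fun x hx y hy r =>
      h3 y hy x hx (sy _ _ (by rwa [i2] at r))⟩) fun u => by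
    by_cases e : ∃ i, g i = u
    swap
    · rw [card_eq_zero.mpr (eq_empty_of_forall_notMem fun q hq => by
        simp only [mem_filter] at hq
        obtain ⟨_, i, h, _⟩ := hq
        exact e ⟨i, h⟩)]
      simp
    obtain ⟨j, hj⟩ := e
    let T := univ.filter fun q : Fin n × Fin w × Fin w => g q.1 = u ∧ F (p q.1 q.2.1) (p (M q.1) q.2.2)
    let X := (range (n + w * K)).filter (· ∈ Ico (j + w * u - w) (j + w * u + 2 * w))
    let P := X.sigma fun x => (range (n + w * K)).filter fun y => y ≠ x ∧ F x y
    have a1 : T.card ≤ d * P.card := card_le_mul_card_image_of_maps_to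
      (f := fun q => ⟨p q.1 q.2.1, p (M q.1) q.2.2⟩) (fun q hq => by
        obtain ⟨h1, h2⟩ := (mem_filter.mp hq).2
        have := g3 _ _ (h1.trans hj.symm)
        have := g3 _ _ (hj.trans h1.symm)
        have := q.2.1.2
        refine mem_sigma.mpr ⟨mem_filter.mpr ⟨mem_range.mpr (bd _ _), mem_Ico.mpr ?_⟩,
          mem_filter.mpr ⟨mem_range.mpr (bd _ _), ?_, h2⟩⟩
        · simp only [p, h1]
          omega
        · rcases lt_or_gt_of_ne (g2 q.1) with l | l
          · exact (sep _ _ _ _ l).ne'
          · exact (sep _ _ _ _ l).ne) d fun y _ => by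
        rcases (T.filter fun q => (⟨p q.1 q.2.1, p (M q.1) q.2.2⟩ : (_ : ℕ) × ℕ) = y).eq_empty_or_nonempty
          with e | ⟨r, hr⟩
        · simp [e]
        refine le_trans (card_le_card_of_injOn Prod.fst (fun q hq => ?_) fun q hq r hr e => ?_)
          (g4 u (g (M r.1)))
        · have e := (mem_filter.mp hq).2.trans (mem_filter.mp hr).2.symm
          refine mem_filter.mpr ⟨mem_univ _, (mem_filter.mp (mem_filter.mp hq).1).2.1, ?_⟩
          have e : p (M q.1) q.2.2 = p (M r.1) r.2.2 := congrArg Sigma.snd e
          exact le_antisymm (not_lt.mp fun l => (sep _ _ _ _ l).ne' e) (not_lt.mp fun l => (sep _ _ _ _ l).ne e)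
        · have e' := (mem_filter.mp hq).2.trans (mem_filter.mp hr).2.symm
          have e1 : p q.1 q.2.1 = p r.1 r.2.1 := congrArg Sigma.fst e'
          have e2 : p (M q.1) q.2.2 = p (M r.1) r.2.2 := congrArg Sigma.snd e'
          simp only [p, e, Nat.add_left_cancel_iff] at e1 e2
          exact Prod.ext e (Prod.ext (Fin.ext e1) (Fin.ext e2))
    have a2 : P.card * m ≤ 3 * w * n := by
      rw [card_sigma, sum_mul]
      refine (sum_le_card_nsmul _ _ n fun x hx => row x (mem_range.mp (mem_filter.mp hx).1)).trans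
        (Nat.mul_le_mul_right _ ((card_le_card fun x hx => (mem_filter.mp hx).2).trans ?_))
      rw [Nat.card_Ico]
      omega
    have a3 := (card_le_card (t := T.image fun q => (q.2.1, g (M q.1), q.2.2)) (s := univ.filter
      fun q : Fin w × Fin K × Fin w => ∃ i, g i = u ∧ g (M i) = q.2.1 ∧ F (p i q.1) (p (M i) q.2.2))
      fun q hq => by
        obtain ⟨i, h1, h2, h3⟩ := (mem_filter.mp hq).2
        exact mem_image.mpr ⟨(i, q.1, q.2.2), mem_filter.mpr ⟨mem_univ _, h1, h3⟩, by simp [h2]⟩).trans
      (card_image_le.trans a1)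
    refine Nat.le_of_mul_le_mul_right ?_ m0
    rw [filter_congr_decidable]
    have := Nat.mul_le_mul_right m a3
    have := Nat.mul_le_mul_left d a2
    have := Nat.mul_le_mul_left w hm
    nlinarith
  have : ∀ i, ∃ a < m, ∃ b < m, R (p i (s (g i)) * m + a) (p (M i) (s (g (M i))) * m + b) := fun i => by
    by_contra! c
    exact hs _ _ (g2 i) ⟨i, rfl, rfl, c⟩
  choose a ha b hb r using this
  let o : Fin n → ℕ := fun i => if i < M i then a i else b (M i)
  have om : ∀ i, o i < m := fun i => by
    simp only [o]
    split_ifs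
    · exact ha _
    · exact hb _
  refine ⟨fun i => p i (s (g i)) * m + o i, fun i j l => ?_, fun i => ⟨win _ (bd _ _) _ (om i), ?_⟩⟩
  · have : p i (s (g i)) < p j (s (g j)) := by
      rcases (g1 l.le).eq_or_lt with e | e
      · simp only [p, e]
        have : i.val < j := l
        omega
      · exact sep _ _ _ _ e
    have := Nat.mul_le_mul_right m (show _ + 1 ≤ _ from this)
    have := om i
    rw [add_one_mul] at *
    beta_reduce
    omega
  · simp only [o, i2]
    by_cases l : i < M i
    · rw [if_pos l, if_neg l.not_gt]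
      exact r i
    · have := r (M i)
      rw [i2] at this
      rw [if_neg l, if_pos (lt_of_le_of_ne (not_lt.mp l) fun e => g2 i (congrArg g e.symm))]
      exact sy _ _ this

end Pool.Agent.H.MP_075e78_co
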