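import Pool.Agent.H.MP_075e78_co.A

/-! Ramsey bound for well spread matchings, certificates, and the switching step. -/

namespace Pool.Agent.H.MP_075e78_co
open Finset Classical

lemma ram {n w d m k N : ℕ} (w0 : 0 < w) (m0 : 0 < m) (M : Fin n → Fin n) (i2 : ∀ i, M (M i) = i)
    (c : Fin n → ℕ) (c1 : Monotone c) (c2 : ∀ i, c i < k) (c3 : ∀ i, c i ≠ c (M i))
    (gd : ∀ a b : Fin n, (univ.filter fun i : Fin n => i.val / w = a / w ∧ (M i).val / w = b / w).card ≤ d)
    (hm : 12 * d * n ≤ w * m) (hN : (n + w * (n / w + k + 1)) * m ≤ N) (G : SimpleGraph (Fin N))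
    (tf : Gᶜ.CliqueFree 3) : ∃ f : Fin n ↪o Fin N, ∀ i, G.Adj (f i) (f (M i)) := by
  by_cases e : ∃ x, n ≤ (univ.filter fun y => Gᶜ.Adj x y).card
  · obtain ⟨x, hx⟩ := e
    obtain ⟨T, hT, hc⟩ := exists_subset_card_eq hx
    refine ⟨T.orderEmbOfFin hc, fun i => ?_⟩
    by_contra r
    refine tf {x, T.orderEmbOfFin hc i, T.orderEmbOfFin hc (M i)} (SimpleGraph.is3Clique_triple_iff.mpr
      ⟨(mem_filter.mp (hT (orderEmbOfFin_mem _ _ _))).2, (mem_filter.mp (hT (orderEmbOfFin_mem _ _ _))).2,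
        fun e => c3 i (congrArg c ((T.orderEmbOfFin hc).injective e)), r⟩)
  push Not at e
  have dv : ∀ i j : Fin n, i.val / w + c i = j.val / w + c j → i.val / w = j / w := fun i j h => by
    rcases le_total i j with l | l
    · have := c1 l
      have := Nat.div_le_div_right (c := w) (show i.val ≤ j from l)
      omega
    · have := c1 l
      have := Nat.div_le_div_right (c := w) (show j.val ≤ i from l)
      omega
  obtain ⟨f, f1, f2⟩ := core (K := n / w + k + 1) (d := d) w0 m0 M i2 (fun i => ⟨i / w + c i, by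
      have := c2 i
      have := Nat.div_le_div_right (c := w) i.2.le
      omega⟩)
    (fun i j l => Nat.add_le_add (Nat.div_le_div_right l) (c1 l))
    (fun i h => by
      have h := congrArg Fin.val h
      have := dv _ _ h
      have := c3 i
      simp only at h
      omega)
    (fun i j h => by
      have t := dv _ _ (congrArg Fin.val h)
      have a := Nat.div_add_mod i w
      have b := Nat.div_add_mod j w
      have := Nat.mod_lt j w0
      rw [t] at a
      omega)
    (fun u v => by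
      rcases (univ.filter fun i : Fin n => (⟨i / w + c i, _⟩ : Fin (n / w + k + 1)) = u ∧
        (⟨M i / w + c (M i), _⟩ : Fin (n / w + k + 1)) = v).eq_empty_or_nonempty with h | ⟨a, ha⟩
      · rw [h]
        simp
      refine le_trans (card_le_card fun i hi => ?_) (gd a (M a))
      have ha := (mem_filter.mp ha).2
      have hi := (mem_filter.mp hi).2
      exact mem_filter.mpr ⟨mem_univ _, dv _ _ (congrArg Fin.val (hi.1.trans ha.1.symm)),
        dv _ _ (congrArg Fin.val (hi.2.trans ha.2.symm))⟩) hm hN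
    (fun x y => ∃ hx hy, G.Adj ⟨x, hx⟩ ⟨y, hy⟩) (fun x y ⟨a, b, h⟩ => ⟨b, a, h.symm⟩) fun x hx => by
      refine le_trans (card_le_card (t := (univ.filter fun y => Gᶜ.Adj ⟨x, hx⟩ y).image Fin.val)
        fun y hy => ?_) (card_image_le.trans (e _).le)
      simp only [mem_filter, mem_range] at hy
      exact mem_image.mpr ⟨⟨y, hy.1⟩, mem_filter.mpr ⟨mem_univ _, fun h => hy.2.1 (congrArg Fin.val h).symm,
        fun h => hy.2.2 ⟨_, _, h⟩⟩, rfl⟩
  exact ⟨OrderEmbedding.ofStrictMono (fun i => ⟨f i, (f2 i).1⟩) fun i j l => f1 l, fun i => (f2 i).2.2.2⟩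

/-- proper interval colouring with `k` colours -/
def Cl {n : ℕ} (M : Fin n → Fin n) (k : ℕ) : Prop :=
  ∃ c : Fin n → ℕ, Monotone c ∧ (∀ i, c i < k) ∧ ∀ i, c i ≠ c (M i)

lemma cert {n l : ℕ} (M : Fin n → Fin n) (i2 : ∀ i, M (M i) = i) (i1 : ∀ i, M i ≠ i) (h : ¬Cl M (l + 1)) :
    ∃ S : Finset (Fin n), S.card ≤ l + 1 ∧ ∀ M' : Fin n → Fin n, (∀ i ∈ S, M' i = M i) → ¬Cl M' (l + 1) := by
  obtain ⟨P, hP⟩ : ∃ P : Fin n → ℕ → Prop, ∀ x j, P x j ↔ ∃ S : Finset (Fin n), S.card ≤ j ∧
      ∀ M' : Fin n → Fin n, (∀ i ∈ S, M' i = M i) → ∀ c : Fin n → ℕ, Monotone c →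
        (∀ i, c i ≠ c (M' i)) → j ≤ c x := ⟨_, fun _ _ => Iff.rfl⟩
  have p0 : ∀ x, P x 0 := fun x => (hP _ _).mpr ⟨∅, by simp⟩
  have p1 : ∀ x y j, x ≤ y → P x j → P y j := fun x y j l h => by
    obtain ⟨S, h1, h2⟩ := (hP _ _).mp h
    exact (hP _ _).mpr ⟨S, h1, fun M' a c b d => (h2 M' a c b d).trans (b l)⟩
  have p2 : ∀ x j, x < M x → P x j → P (M x) (j + 1) := fun x j l h => by
    obtain ⟨S, h1, h2⟩ := (hP _ _).mp h
    refine (hP _ _).mpr ⟨insert x S, (card_insert_le _ _).trans (by omega), fun M' a c b d => ?_⟩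
    have := h2 M' (fun i hi => a i (mem_insert_of_mem hi)) c b d
    have := b l.le
    have := d x
    rw [a x (mem_insert_self _ _)] at this
    omega
  by_cases e : ∃ x, P x (l + 1)
  · obtain ⟨x, hx⟩ := e
    obtain ⟨S, h1, h2⟩ := (hP _ _).mp hx
    exact ⟨S, h1, fun M' a ⟨c, b1, b2, b3⟩ => (h2 M' a c b1 b3).not_gt (b2 x)⟩
  have st : ∀ x, x < M x → Nat.findGreatest (P x) l < Nat.findGreatest (P (M x)) l := fun x hx => by
    have a := p2 x _ hx (Nat.findGreatest_spec (Nat.zero_le l) (p0 x))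
    refine Nat.le_findGreatest ?_ a
    by_contra c
    have := Nat.findGreatest_le (P := P x) l
    exact e ⟨_, (show Nat.findGreatest (P x) l + 1 = l + 1 by omega) ▸ a⟩
  refine absurd ⟨fun x => Nat.findGreatest (P x) l, fun x y hl => Nat.findGreatest_mono_left
    (fun j => p1 x y j hl) l, fun x => Nat.lt_succ_of_le (Nat.findGreatest_le l), fun x => ?_⟩ h
  rcases lt_or_gt_of_ne (i1 x) with hl | hl
  · have := st (M x) (by rwa [i2])
    rw [i2] at this
    exact this.ne'
  · exact (st x hl).ne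

/-- matchings with interval chromatic number `l + 2` and at least `j` edges from `I` to `J` -/
noncomputable def A (n l : ℕ) (I J : Finset (Fin n)) (j : ℕ) : Finset (Fin n → Fin n) :=
  univ.filter fun M => ((∀ i, M (M i) = i) ∧ (∀ i, M i ≠ i) ∧ Cl M (l + 2) ∧ ¬Cl M (l + 1)) ∧
    j ≤ (I.filter fun i => M i ∈ J).card

lemma switch {n l q j : ℕ} (I J : Finset (Fin n)) (hq : 2 * q + 2 * l + 4 ≤ n) (hj : 2 * l ≤ j) :
    (A n l I J (j + 4)).card * q ≤ (A n l I J j ×ˢ I ×ˢ J).card * 1 := by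
  refine card_mul_le_card_mul (fun M t => M = Equiv.swap t.2.2 (t.1 t.2.1) ∘ t.1 ∘ Equiv.swap t.2.2 (t.1 t.2.1))
    (fun M hM => ?_) fun t _ => card_le_one.mpr fun a ha b hb => by
      rw [mem_bipartiteBelow] at ha hb
      exact ha.2.trans hb.2.symm
  obtain ⟨⟨i2, i1, ⟨c, c1, c2, c3⟩, nc⟩, hX⟩ := (mem_filter.mp hM).2
  obtain ⟨S, hS, ct⟩ := cert M i2 i1 nc
  have cV : (S ∪ S.image M).card ≤ 2 * l + 2 := (card_union_le _ _).trans (by
    have := card_image_le (s := S) (f := M)
    omega)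
  obtain ⟨a, ha, aV⟩ := exists_mem_notMem_of_card_lt_card (s := S ∪ S.image M)
    (t := I.filter fun i => M i ∈ J) (by omega)
  rw [mem_filter] at ha
  let V := insert a (insert (M a) (S ∪ S.image M))
  let X := Vᶜ.filter fun x => c x ≠ c a ∧ c (M x) ≠ c (M a)
  have mS : ∀ x, x ∈ S.image M ↔ M x ∈ S := fun x =>
    ⟨fun h => by obtain ⟨y, h, rfl⟩ := mem_image.mp h; rwa [i2], fun h => mem_image.mpr ⟨_, h, i2 x⟩⟩
  have inj : ∀ x y, M x = M y → x = y := fun x y h => by rw [← i2 x, h, i2]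
  have h1 : Vᶜ ⊆ X ∪ X.image M := fun x hx => by
    by_cases g : c x ≠ c a ∧ c (M x) ≠ c (M a)
    · exact mem_union_left _ (mem_filter.mpr ⟨hx, g⟩)
    refine mem_union_right _ (mem_image.mpr ⟨M x, mem_filter.mpr ⟨?_, ?_⟩, i2 x⟩)
    · simp only [V, mem_compl, mem_insert, mem_union, mS, i2] at hx ⊢
      grind
    · have := c3 x
      have := c3 a
      rw [i2]
      omega
  have h2 : q ≤ X.card := by
    have a1 := (card_le_card h1).trans ((card_union_le _ _).trans (Nat.add_le_add_left card_image_le _))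
    have a2 : V.card ≤ 2 * l + 4 := (card_insert_le _ _).trans (by
      have := card_insert_le (M a) (S ∪ S.image M)
      omega)
    rw [card_compl, Fintype.card_fin] at a1
    omega
  refine h2.trans (card_le_card_of_injOn
    (fun x => (Equiv.swap (M a) x ∘ M ∘ Equiv.swap (M a) x, a, M a)) (fun x hx => ?_) fun x hx y hy e => ?_)
  · simp only [X, V, coe_filter, mem_compl, mem_insert, mem_union, mS, Set.mem_setOf_eq, not_or] at hx aV
    obtain ⟨⟨x1, x2, x3, x4⟩, x5, x6⟩ := hx
    have ea : Equiv.swap (M a) x (M (Equiv.swap (M a) x a)) = x := by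
      rw [Equiv.swap_apply_of_ne_of_ne (i1 a).symm (Ne.symm x1), Equiv.swap_apply_left]
    have ot : ∀ i, i ≠ a → i ≠ M a → i ≠ x → i ≠ M x → Equiv.swap (M a) x (M (Equiv.swap (M a) x i)) = M i :=
      fun i a1 a2 a3 a4 => by
        rw [Equiv.swap_apply_of_ne_of_ne a2 a3, Equiv.swap_apply_of_ne_of_ne (fun h => a1 (inj _ _ h))
          fun h => a4 (by rw [← h, i2])]
    refine (mem_bipartiteAbove _).mpr ⟨mem_product.mpr ⟨mem_filter.mpr ⟨mem_univ _, ⟨fun i => by simp [i2],
      fun i h => ?_, ⟨c, c1, c2, fun i => ?_⟩, ct _ fun i hi => ?_⟩, ?_⟩, mem_product.mpr ha⟩, ?_⟩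
    · exact i1 (Equiv.swap (M a) x i) (by simpa using congrArg (Equiv.swap (M a) x) h)
    · have := c3 i
      have := i1 x
      have := i1 a
      have := i2 a
      have := i2 x
      have := i2 i
      simp only [Function.comp, Equiv.swap_apply_def]
      grind
    · exact ot i (by grind) (by grind) (by grind) (by grind)
    · have : I.filter (fun i => M i ∈ J) ⊆ {a, M a, x, M x} ∪ I.filter fun i =>
          (Equiv.swap (M a) x ∘ M ∘ Equiv.swap (M a) x) i ∈ J := fun i hi => by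
        by_cases g : i ∈ ({a, M a, x, M x} : Finset _)
        · exact mem_union_left _ g
        simp only [mem_insert, mem_singleton, not_or] at g
        refine mem_union_right _ (mem_filter.mpr ⟨(mem_filter.mp hi).1, ?_⟩)
        simp only [Function.comp, ot i g.1 g.2.1 g.2.2.1 g.2.2.2]
        exact (mem_filter.mp hi).2
      have := (card_le_card this).trans (card_union_le _ _)
      have := card_le_four (a := a) (b := M a) (c := x) (d := M x)
      dsimp only
      omega
    · funext i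
      simp [ea]
  · simp only [X, V, coe_filter, mem_compl, mem_insert, Set.mem_setOf_eq, not_or] at hx hy
    have := congrFun (congrArg Prod.fst e) a
    simpa [Equiv.swap_apply_of_ne_of_ne (i1 a).symm (Ne.symm hx.1.1),
      Equiv.swap_apply_of_ne_of_ne (i1 a).symm (Ne.symm hy.1.1)] using this

end Pool.Agent.H.MP_075e78_co
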