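import Pool.Agent.H.MP_075e78_co.B

/-! Few matchings are badly spread; the class is not empty. -/

namespace Pool.Agent.H.MP_075e78_co
open Finset Classical

lemma iter {n l q : ℕ} (I J : Finset (Fin n)) (hq : 2 * q + 2 * l + 4 ≤ n) (q0 : 0 < q)
    (h : 4 * (I.card * J.card) ≤ q) (t : ℕ) :
    4 ^ t * (A n l I J (2 * l + 4 * t)).card ≤ (A n l ∅ ∅ 0).card := by
  induction t with
  | zero =>
    rw [pow_zero, one_mul]
    exact card_le_card fun M hM => mem_filter.mpr ⟨mem_univ _, (mem_filter.mp hM).2.1, Nat.zero_le _⟩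
  | succ t ih =>
    have a := switch (j := 2 * l + 4 * t) I J hq (by omega)
    rw [card_product, card_product, mul_one] at a
    have b : 4 * (A n l I J (2 * l + 4 * t + 4)).card ≤ (A n l I J (2 * l + 4 * t)).card :=
      Nat.le_of_mul_le_mul_right (by
        have := Nat.mul_le_mul_left (A n l I J (2 * l + 4 * t)).card h
        nlinarith) q0
    have := Nat.mul_le_mul_left (4 ^ t) b
    rw [pow_succ, mul_add_one, ← add_assoc]
    nlinarith

lemma blk {n w : ℕ} (w0 : 0 < w) (a : ℕ) : (univ.filter fun i : Fin n => i.val / w = a).card ≤ w := by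
  refine (card_le_card_of_injOn (t := range w) (fun i => i.val % w)
    (fun i _ => mem_range.mpr (Nat.mod_lt _ w0)) fun i hi j hj e => ?_).trans_eq (card_range w)
  have a := Nat.div_add_mod i w
  have b := Nat.div_add_mod j w
  rw [(mem_filter.mp hi).2] at a
  rw [(mem_filter.mp hj).2] at b
  beta_reduce at e
  exact Fin.ext (by omega)

/-- every colouring of `N` ordered points without blue triangle has a red ordered copy -/
def Rm {n : ℕ} (M : Fin n → Fin n) (N : ℕ) : Prop :=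
  ∀ G : SimpleGraph (Fin N), Gᶜ.CliqueFree 3 → ∃ f : Fin n ↪o Fin N, ∀ i, G.Adj (f i) (f (M i))

/-- the bound -/
def bd (n l : ℕ) : ℕ := (l + 5) * n * (768 * (2 * l + 4 * (2 * (Nat.log 2 n + 1))) * n.sqrt)

lemma few {n l : ℕ} (hn : 4 * l + 16 ≤ n) :
    n ^ 2 * ((A n l ∅ ∅ 0).filter fun M => ¬Rm M (bd n l)).card ≤ (A n l ∅ ∅ 0).card := by
  have s4 : 4 ≤ n.sqrt := Nat.le_sqrt.mpr (by omega)
  have s1 := Nat.sqrt_le n
  have s2 := Nat.lt_succ_sqrt n
  obtain ⟨w, hw⟩ : ∃ w, w = n.sqrt / 4 := ⟨_, rfl⟩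
  have w0 : 0 < w := by omega
  have w1 : 16 * (w * w) ≤ n := by nlinarith [Nat.mul_self_le_mul_self (show 4 * w ≤ n.sqrt by omega)]
  have w2 : n ≤ 64 * (w * w) := by
    nlinarith [Nat.mul_self_le_mul_self (show n.sqrt.succ ≤ 8 * w by omega)]
  obtain ⟨t, ht⟩ : ∃ t, t = 2 * (Nat.log 2 n + 1) := ⟨_, rfl⟩
  let I : Fin n → Finset (Fin n) := fun a => univ.filter fun i => i.val / w = a / w
  have c : ((A n l ∅ ∅ 0).filter fun M => ¬Rm M (bd n l)) ⊆
      univ.biUnion fun p : Fin n × Fin n => A n l (I p.1) (I p.2) (2 * l + 4 * t) := fun M hM => by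
    obtain ⟨hM, r⟩ := mem_filter.mp hM
    have hM := (mem_filter.mp hM).2.1
    by_contra g
    obtain ⟨c, c1, c2, c3⟩ := hM.2.2.1
    refine r fun G => ram (d := 2 * l + 4 * t) (m := 768 * (2 * l + 4 * t) * w) w0 (by
      have : 0 < t := by omega
      positivity) M hM.1 c c1 c2 c3 (fun a b => ?_) (by nlinarith [Nat.mul_le_mul_left (2 * l + 4 * t) w2])
      (Nat.mul_le_mul ?_ (by rw [← ht]; exact Nat.mul_le_mul_left _ (by omega))) G
    · by_contra! h
      refine g (mem_biUnion.mpr ⟨(a, b), mem_univ _, mem_filter.mpr ⟨mem_univ _, hM, h.le.trans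
        (card_le_card fun i hi => ?_)⟩⟩)
      simpa [I] using hi
    · have := Nat.mul_div_le n w
      have : w * (l + 3) ≤ n * (l + 3) := Nat.mul_le_mul_right _ (by nlinarith)
      nlinarith
  have c2 : 4 ^ t * ((A n l ∅ ∅ 0).filter fun M => ¬Rm M (bd n l)).card ≤ n ^ 2 * (A n l ∅ ∅ 0).card := by
    refine (Nat.mul_le_mul_left _ ((card_le_card c).trans card_biUnion_le)).trans ?_
    rw [mul_sum]
    refine (sum_le_card_nsmul _ _ _ fun p _ => iter (q := n / 4) _ _ (by omega) (by omega) ?_ t).trans_eq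
      (by simp [sq])
    have := Nat.mul_le_mul (blk (n := n) w0 (p.1 / w)) (blk (n := n) w0 (p.2 / w))
    simp only [I]
    omega
  have c3 : n ^ 2 * n ^ 2 ≤ 4 ^ t := by
    refine (pow_add n 2 2).symm.trans_le ((Nat.pow_le_pow_left
      (Nat.lt_pow_succ_log_self one_lt_two n).le _).trans_eq ?_)
    rw [ht, show 4 = 2 ^ 2 from rfl, ← pow_mul, ← pow_mul]
    congr 1
    omega
  refine Nat.le_of_mul_le_mul_left ?_ (show 0 < n ^ 2 from pow_pos (by omega) 2)
  rw [← mul_assoc]
  exact (Nat.mul_le_mul_right _ c3).trans c2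

lemma nemp {m l : ℕ} (hn : l < m) : (A (2 * m) l ∅ ∅ 0).Nonempty := by
  let M : Fin (2 * m) → Fin (2 * m) := fun i =>
    ⟨if i.val < 2 * l then i + 1 - 2 * (i % 2) else 2 * l + 2 * m - 1 - i, by
      have := i.2
      split_ifs <;> omega⟩
  refine ⟨M, mem_filter.mpr ⟨mem_univ _, ⟨fun i => Fin.ext ?_, fun i h => ?_,
    ⟨fun i => if i.val < 2 * l then (i + 1) / 2 else if i.val < l + m then l else l + 1,
      fun i j h => ?_, fun i => ?_, fun i => ?_⟩, fun ⟨c, c1, c2, c3⟩ => ?_⟩, Nat.zero_le _⟩⟩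
  · have := i.2
    simp only [M]
    split_ifs <;> omega
  · have := congrArg Fin.val h
    have := i.2
    simp only [M] at *
    split_ifs at * <;> omega
  · have : i.val ≤ j := h
    beta_reduce
    split_ifs <;> omega
  · beta_reduce
    split_ifs <;> omega
  · have := i.2
    simp only [M]
    split_ifs <;> omega
  · have st : ∀ j, ∀ h : j ≤ l, j + 1 ≤ c (M ⟨2 * j, by omega⟩) := fun j => by
      induction j with
      | zero =>
        intro h
        have := c3 ⟨2 * 0, by omega⟩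
        have := c1 (show ⟨2 * 0, by omega⟩ ≤ M ⟨2 * 0, by omega⟩ from Nat.zero_le _)
        omega
      | succ j ih =>
        intro h
        have := ih (by omega)
        have := c3 ⟨2 * (j + 1), by omega⟩
        have := c1 (show ⟨2 * (j + 1), by omega⟩ ≤ M ⟨2 * (j + 1), by omega⟩ by
          simp only [M, Fin.mk_le_mk]
          split_ifs <;> omega)
        have := c1 (show M ⟨2 * j, by omega⟩ ≤ ⟨2 * (j + 1), by omega⟩ by
          simp only [M, Fin.mk_le_mk]
          split_ifs <;> omega)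
        omega
    exact (st l le_rfl).not_gt (c2 _)

lemma bd_le {n : ℕ} (l : ℕ) (hn : 2 ≤ n) :
    (bd n l : ℝ) ≤ (l + 5) * 768 * (4 * l + 32) * (n : ℝ) ^ (3 / 2 : ℝ) * Real.log n := by
  have n0 : (0 : ℝ) < n := by positivity
  have a : (n.sqrt : ℝ) ≤ (n : ℝ) ^ (1 / 2 : ℝ) := by
    rw [← Real.sqrt_eq_rpow]
    exact Real.nat_sqrt_le_real_sqrt
  have b : (1 : ℝ) ≤ Nat.log 2 n := by exact_mod_cast Nat.log_pos one_lt_two hn
  have c : (Nat.log 2 n : ℝ) ≤ 2 * Real.log n := by
    have h : (2 : ℝ) ^ Nat.log 2 n ≤ n := by exact_mod_cast Nat.pow_log_le_self 2 (by omega)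
    have := Real.log_le_log (by positivity) h
    rw [Real.log_pow] at this
    nlinarith [Real.log_two_gt_d9]
  have d : (2 * l + 4 * (2 * (Nat.log 2 n + 1)) : ℝ) ≤ (4 * l + 32) * Real.log n := by
    have : (0 : ℝ) ≤ l := by positivity
    nlinarith
  rw [show (3 / 2 : ℝ) = 1 + 1 / 2 by norm_num, Real.rpow_add n0, Real.rpow_one, bd]
  push_cast
  calc _ ≤ (l + 5) * (n : ℝ) * (768 * ((4 * l + 32) * Real.log n) * (n : ℝ) ^ (1 / 2 : ℝ)) := by
        gcongr
    _ = _ := by ring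

end Pool.Agent.H.MP_075e78_co
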