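import Pool.Agent.H.MP_075e78_co.C

/-! Almost every ordered matching with interval chromatic number `k` has ordered Ramsey number
`O(n^(3/2) log n)` against the triangle. -/

namespace Pool.Agent.H.MP_075e78_co
open Filter Topology

/-- `M` sends each vertex to its partner: an ordered (perfect) matching on the ordered set `Fin n`. -/
def IsMatching {n : ℕ} (M : Fin n → Fin n) : Prop := ∀ i, M (M i) = i ∧ M i ≠ i

/-- The interval chromatic number is `k`: least number of consecutive intervals with no edge inside. -/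
def IntChrom {n : ℕ} (M : Fin n → Fin n) (k : ℕ) : Prop :=
  IsLeast {j | ∃ c : Fin n → Fin j, Monotone c ∧ ∀ i, c i ≠ c (M i)} k

/-- The ordered Ramsey number of `M` against the triangle is at most `X` (`G` is the red graph). -/
def RamseyLe {n : ℕ} (M : Fin n → Fin n) (X : ℝ) : Prop :=
  ∃ N : ℕ, (N : ℝ) ≤ X ∧ ∀ G : SimpleGraph (Fin N),
    (∃ f : Fin n ↪o Fin N, ∀ i, G.Adj (f i) (f (M i))) ∨ ¬Gᶜ.CliqueFree 3

lemma cl {n j : ℕ} (M : Fin n → Fin n) :
    (∃ c : Fin n → Fin j, Monotone c ∧ ∀ i, c i ≠ c (M i)) ↔ Cl M j :=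
  ⟨fun ⟨c, a, b⟩ => ⟨fun i => c i, a, fun i => (c i).2, fun i h => b i (Fin.ext h)⟩,
    fun ⟨c, a, b, d⟩ => ⟨fun i => ⟨c i, b i⟩, a, fun i h => d i (congrArg Fin.val h)⟩⟩

lemma mem {n l : ℕ} (M : Fin n → Fin n) : M ∈ A n l ∅ ∅ 0 ↔ IsMatching M ∧ IntChrom M (l + 2) := by
  simp only [A, Finset.mem_filter, Finset.mem_univ, true_and, Nat.zero_le, and_true, IsMatching, IntChrom,
    IsLeast, cl, mem_lowerBounds, Set.mem_setOf_eq, forall_and, and_assoc]
  refine and_congr_right fun _ => and_congr_right fun _ => and_congr_right fun _ =>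
    ⟨fun h j ⟨c, a, b, d⟩ => ?_, fun h g => by simpa using h _ g⟩
  by_contra! e
  exact h ⟨c, a, fun i => (b i).trans_le (by omega), d⟩

theorem typical : ∀ k ≥ 2, ∃ C : ℝ, Tendsto (fun m : ℕ =>
    ({M : Fin (2 * m) → Fin (2 * m) | IsMatching M ∧ IntChrom M k ∧
      RamseyLe M (C * (2 * m : ℝ) ^ (3 / 2 : ℝ) * Real.log (2 * m))}.ncard : ℝ) /
    ({M : Fin (2 * m) → Fin (2 * m) | IsMatching M ∧ IntChrom M k}.ncard : ℝ)) atTop (𝓝 1) := by
  classical
  intro k hk
  obtain ⟨l, rfl⟩ : ∃ l, k = l + 2 := ⟨k - 2, by omega⟩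
  refine ⟨(l + 5) * 768 * (4 * l + 32), tendsto_of_tendsto_of_tendsto_of_le_of_le'
    (g := fun m : ℕ => 1 - 1 / (m : ℝ)) (by
      simpa using tendsto_const_nhds.sub (tendsto_one_div_atTop_nhds_zero_nat (𝕜 := ℝ))) tendsto_const_nhds
    ?_ (Eventually.of_forall fun m => div_le_one_of_le₀ (Nat.cast_le.mpr (Set.ncard_le_ncard
      (fun M h => ⟨h.1, h.2.1⟩) (Set.toFinite _))) (Nat.cast_nonneg _))⟩
  filter_upwards [eventually_ge_atTop (2 * l + 8)] with m hm
  have e : {M : Fin (2 * m) → Fin (2 * m) | IsMatching M ∧ IntChrom M (l + 2)} = A (2 * m) l ∅ ∅ 0 :=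
    Set.ext fun M => (mem M).symm
  have p : (0 : ℝ) < (A (2 * m) l ∅ ∅ 0).card := by exact_mod_cast (nemp (by omega)).card_pos
  have m0 : (1 : ℝ) ≤ m := by exact_mod_cast (by omega : 1 ≤ m)
  have f := (Nat.cast_le (α := ℝ)).mpr (few (n := 2 * m) (l := l) (by omega))
  have s := congrArg (Nat.cast (R := ℝ)) (Finset.card_filter_add_card_filter_not
    (s := A (2 * m) l ∅ ∅ 0) fun M => Rm M (bd (2 * m) l))
  have b := bd_le l (show 2 ≤ 2 * m by omega)
  push_cast at f s b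
  rw [e, Set.ncard_coe_finset, le_div_iff₀ p]
  refine le_trans ?_ (Nat.cast_le.mpr ((Set.ncard_coe_finset ((A (2 * m) l ∅ ∅ 0).filter
    fun M => Rm M (bd (2 * m) l))).symm.trans_le (Set.ncard_le_ncard (fun M h => ?_) (Set.toFinite _))))
  · rw [sub_mul, one_mul, ← s, add_sub_assoc, add_le_iff_nonpos_right, sub_nonpos, s, div_mul_eq_mul_div,
      one_mul, le_div_iff₀ (by linarith)]
    refine le_trans ?_ f
    rw [mul_comm]
    gcongr
    nlinarith
  · obtain ⟨h1, h2⟩ := Finset.mem_filter.mp h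
    rw [mem] at h1
    exact ⟨h1.1, h1.2, _, b, fun G => (em _).imp_left (h2 G) |>.imp_right id⟩

end Pool.Agent.H.MP_075e78_co
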